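import Pool.Agent.Y434.E.Apx
import Pool.Agent.Y958.E.Stm2

/-! # Project Y958-E: multiplicative functions at finite pretentious distance from a Dirichlet character -/

set_option autoImplicit false

namespace Pool.Agent.Y681.E.Apx2

open Finset Pool.Agent.Y958.E Pool.Agent.Y434.E.Apx

/-! ### elementary lemmas -/

theorem exp_lip {z w : ℂ} (hz : z.re ≤ 0) (hw : w.re ≤ 0) :
    ‖Complex.exp z - Complex.exp w‖ ≤ ‖z - w‖ := by
  have h := Convex.norm_image_sub_le_of_norm_deriv_le (𝕜 := ℂ) (f := Complex.exp) (C := 1)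
    (s := {z : ℂ | z.re ≤ 0}) (x := w) (y := z) (fun x _ => Complex.differentiable_exp x)
    (fun x hx => by
      rw [Complex.deriv_exp, Complex.norm_exp]
      exact Real.exp_le_one_iff.2 hx) (convex_halfSpace_re_le 0) hw hz
  rwa [one_mul] at h

theorem exp_approx {k : ℂ} (hk : ‖k‖ ≤ 1) : ‖k - Complex.exp (k - 1)‖ ≤ 2 * ‖k - 1‖ ^ 2 := by
  rcases le_or_gt ‖k - 1‖ 1 with h | h
  · have h1 := Complex.norm_exp_sub_one_sub_id_le h
    rw [norm_sub_rev]
    have e : Complex.exp (k - 1) - 1 - (k - 1) = Complex.exp (k - 1) - k := by ring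
    rw [e] at h1
    have : 0 ≤ ‖k - 1‖ ^ 2 := by positivity
    linarith
  · have h1 : ‖Complex.exp (k - 1)‖ ≤ 1 := by
      rw [Complex.norm_exp]
      apply Real.exp_le_one_iff.2
      have := Complex.re_le_norm k
      simp only [Complex.sub_re, Complex.one_re]
      linarith
    have h2 := norm_sub_le k (Complex.exp (k - 1))
    have h3 : 1 ≤ ‖k - 1‖ ^ 2 := by nlinarith
    linarith

/-- the additive function -/
noncomputable def aa (h : ℕ → ℂ) {q : ℕ} (χ : DirichletCharacter ℂ q) (p : ℕ) : ℂ :=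
  h p * (starRingEnd ℂ) (χ ((p : ℕ) : ZMod q)) - 1

/-- the pretentious error -/
noncomputable def rr (h : ℕ → ℂ) {q : ℕ} (χ : DirichletCharacter ℂ q) (p : ℕ) : ℝ :=
  1 - (h p * (starRingEnd ℂ) (χ ((p : ℕ) : ZMod q))).re

section basic

variable {q : ℕ} {χ : DirichletCharacter ℂ q} {h : ℕ → ℂ}

theorem kn (hh : BM h) (p : ℕ) : ‖h p * (starRingEnd ℂ) (χ ((p : ℕ) : ZMod q))‖ ≤ 1 := by
  rw [norm_mul, RCLike.norm_conj]
  exact mul_le_one₀ (hh.1 p) (norm_nonneg _) (DirichletCharacter.norm_le_one χ _)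

theorem rr_nonneg (hh : BM h) (p : ℕ) : 0 ≤ rr h χ p := by
  have h1 := kn (χ := χ) hh p
  have h2 := Complex.re_le_norm (h p * (starRingEnd ℂ) (χ ((p : ℕ) : ZMod q)))
  unfold rr
  linarith

theorem aa_re (p : ℕ) : (aa h χ p).re = -rr h χ p := by
  unfold aa rr
  rw [Complex.sub_re, Complex.one_re]
  ring

theorem aa_re_le (hh : BM h) (p : ℕ) : (aa h χ p).re ≤ 0 := by
  rw [aa_re]
  have := rr_nonneg (χ := χ) hh p
  linarith

theorem aa_sq (hh : BM h) (p : ℕ) : ‖aa h χ p‖ ^ 2 ≤ 2 * rr h χ p := by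
  have h1 := kn (χ := χ) hh p
  unfold aa rr
  generalize h p * (starRingEnd ℂ) (χ ((p : ℕ) : ZMod q)) = k at h1 ⊢
  have h2 : ‖k - 1‖ ^ 2 = ‖k‖ ^ 2 - 2 * k.re + 1 := by
    rw [← Complex.normSq_eq_norm_sq, ← Complex.normSq_eq_norm_sq, Complex.normSq_apply,
      Complex.normSq_apply]
    simp only [Complex.sub_re, Complex.one_re, Complex.sub_im, Complex.one_im]
    ring
  have h3 : ‖k‖ ^ 2 ≤ 1 := pow_le_one₀ (norm_nonneg _) h1
  linarith

theorem aa_le (hh : BM h) (p : ℕ) : ‖aa h χ p‖ ≤ 2 := by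
  have h1 := kn (χ := χ) hh p
  unfold aa
  have h2 := norm_sub_le (h p * (starRingEnd ℂ) (χ ((p : ℕ) : ZMod q))) 1
  rw [norm_one] at h2
  linarith

theorem prime_case (hh : BM h) (p : ℕ) :
    ‖h p - χ ((p : ℕ) : ZMod q) * Complex.exp (aa h χ p)‖ ≤ 2 * ‖aa h χ p‖ ^ 2 := by
  by_cases hu : IsUnit ((p : ℕ) : ZMod q)
  · obtain ⟨u, hu⟩ := hu
    have h1 : ‖χ ((p : ℕ) : ZMod q)‖ = 1 := by
      rw [← hu]
      exact DirichletCharacter.unit_norm_eq_one χ u
    have h2 : χ ((p : ℕ) : ZMod q) * (starRingEnd ℂ) (χ ((p : ℕ) : ZMod q)) = 1 := by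
      rw [Complex.mul_conj, Complex.normSq_eq_norm_sq, h1]
      norm_num
    have h3 : h p - χ ((p : ℕ) : ZMod q) * Complex.exp (aa h χ p) =
        χ ((p : ℕ) : ZMod q) * (h p * (starRingEnd ℂ) (χ ((p : ℕ) : ZMod q)) -
          Complex.exp (aa h χ p)) := by
      linear_combination (-h p) * h2
    rw [h3, norm_mul, h1, one_mul]
    exact exp_approx (kn hh p)
  · have h1 : χ ((p : ℕ) : ZMod q) = 0 := χ.map_nonunit hu
    have h2 : ‖aa h χ p‖ = 1 := by
      unfold aa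
      rw [h1]
      simp
    rw [h1, zero_mul, sub_zero, h2]
    have := hh.1 p
    linarith

theorem tele2 (hh : BM h) (h1 : h 1 = 1) (m : ℕ) :
    1 ≤ m → ‖h m - χ ((m : ℕ) : ZMod q) * Complex.exp (∑ p ∈ m.primeFactors, aa h χ p)‖ ≤
      ∑ p ∈ m.primeFactors, (2 * ‖aa h χ p‖ ^ 2 + if p ^ 2 ∣ m then 2 else 0) := by
  have hexp : ∀ s : Finset ℕ, ‖Complex.exp (∑ p ∈ s, aa h χ p)‖ ≤ 1 := by
    intro s
    rw [Complex.norm_exp]
    apply Real.exp_le_one_iff.2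
    rw [Complex.re_sum]
    exact Finset.sum_nonpos fun p _ => aa_re_le hh p
  induction m using Nat.recOnPosPrimePosCoprime with
  | prime_pow p n hp hn =>
    intro _
    rw [Nat.primeFactors_prime_pow hn.ne' hp, Finset.sum_singleton, Finset.sum_singleton]
    rcases Nat.lt_or_ge n 2 with h2 | h2
    · have : n = 1 := by omega
      subst this
      rw [pow_one]
      have h3 : (0 : ℝ) ≤ if p ^ 2 ∣ p then 2 else 0 := by split_ifs <;> norm_num
      have h4 := prime_case (χ := χ) hh p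
      linarith
    · rw [if_pos (pow_dvd_pow p h2)]
      have k1 := hh.1 (p ^ n)
      have k2 : ‖χ ((p ^ n : ℕ) : ZMod q) * Complex.exp (aa h χ p)‖ ≤ 1 := by
        rw [norm_mul]
        have := hexp {p}
        rw [Finset.sum_singleton] at this
        exact mul_le_one₀ (DirichletCharacter.norm_le_one χ _) (norm_nonneg _) this
      have k3 := norm_sub_le (h (p ^ n)) (χ ((p ^ n : ℕ) : ZMod q) * Complex.exp (aa h χ p))
      have k4 : 0 ≤ ‖aa h χ p‖ ^ 2 := by positivity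
      linarith
  | zero => intro h; omega
  | one =>
    intro _
    rw [h1]
    simp
  | coprime a b ha hb hab iha ihb =>
    intro _
    have ia := iha ha.le
    have ib := ihb hb.le
    rw [hh.2 a b ha.le hb.le hab, Nat.cast_mul, map_mul, hab.primeFactors_mul,
      Finset.sum_union hab.disjoint_primeFactors, Finset.sum_union hab.disjoint_primeFactors,
      Complex.exp_add]
    have ea := hexp a.primeFactors
    generalize Complex.exp (∑ p ∈ a.primeFactors, aa h χ p) = A at ia ea ⊢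
    generalize Complex.exp (∑ p ∈ b.primeFactors, aa h χ p) = B at ib ⊢
    have k1 : ‖h a * h b - χ ((a : ℕ) : ZMod q) * χ ((b : ℕ) : ZMod q) * (A * B)‖ ≤
        ‖h a - χ ((a : ℕ) : ZMod q) * A‖ + ‖h b - χ ((b : ℕ) : ZMod q) * B‖ := by
      have e : h a * h b - χ ((a : ℕ) : ZMod q) * χ ((b : ℕ) : ZMod q) * (A * B) =
          (h a - χ ((a : ℕ) : ZMod q) * A) * h b +
            χ ((a : ℕ) : ZMod q) * A * (h b - χ ((b : ℕ) : ZMod q) * B) := by
        ring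
      rw [e]
      refine (norm_add_le _ _).trans (add_le_add ?_ ?_)
      · rw [norm_mul]
        exact mul_le_of_le_one_right (norm_nonneg _) (hh.1 b)
      · rw [norm_mul]
        apply mul_le_of_le_one_left (norm_nonneg _)
        rw [norm_mul]
        exact mul_le_one₀ (DirichletCharacter.norm_le_one χ _) (norm_nonneg _) ea
    refine k1.trans (add_le_add (ia.trans ?_) (ib.trans ?_))
    · refine Finset.sum_le_sum fun p _ => ?_
      have : (if p ^ 2 ∣ a then (2 : ℝ) else 0) ≤ if p ^ 2 ∣ a * b then 2 else 0 := by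
        by_cases h : p ^ 2 ∣ a
        · rw [if_pos h, if_pos (Dvd.dvd.mul_right h _)]
        · rw [if_neg h]; split_ifs <;> norm_num
      linarith
    · refine Finset.sum_le_sum fun p _ => ?_
      have : (if p ^ 2 ∣ b then (2 : ℝ) else 0) ≤ if p ^ 2 ∣ a * b then 2 else 0 := by
        by_cases h : p ^ 2 ∣ b
        · rw [if_pos h, if_pos (Dvd.dvd.mul_left h _)]
        · rw [if_neg h]; split_ifs <;> norm_num
      linarith

end basic

/-! ### the Turan-Kubilius inequality -/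

/-- the centred indicator of divisibility -/
noncomputable def tt (p n : ℕ) : ℝ := (if p ∣ n then 1 else 0) - 1 / (p : ℝ)

theorem sum_ind (N d : ℕ) : ∑ n ∈ Ioc 0 N, (if d ∣ n then (1 : ℝ) else 0) = ((N / d : ℕ) : ℝ) := by
  rw [← Finset.sum_filter, Finset.sum_const, Nat.Ioc_filter_dvd_card_eq_div, nsmul_eq_mul, mul_one]

theorem fl_le (N d : ℕ) : ((N / d : ℕ) : ℝ) ≤ N / d := Nat.cast_div_le

theorem fl_ge (N d : ℕ) (hd : 0 < d) : (N : ℝ) / d - 1 ≤ ((N / d : ℕ) : ℝ) := by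
  have h1 : N < (N / d + 1) * d := by
    have := Nat.lt_mul_div_succ N hd
    rw [mul_comm]
    exact this
  have hd' : (0:ℝ) < d := by exact_mod_cast hd
  rw [sub_le_iff_le_add, div_le_iff₀ hd']
  exact_mod_cast h1.le

theorem tt_ne {p p' : ℕ} (hp : 2 ≤ p) (hp' : 2 ≤ p') (hc : Nat.Coprime p p') (N : ℕ) :
    |∑ n ∈ Ioc 0 N, tt p n * tt p' n| ≤ 1 := by
  have hp0 : (0:ℝ) < p := by exact_mod_cast (by omega : 0 < p)
  have hp0' : (0:ℝ) < p' := by exact_mod_cast (by omega : 0 < p')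
  have e : ∑ n ∈ Ioc 0 N, tt p n * tt p' n = ((N / (p * p') : ℕ) : ℝ) -
      ((N / p : ℕ) : ℝ) * (1 / (p' : ℝ)) - ((N / p' : ℕ) : ℝ) * (1 / (p : ℝ)) +
      N * (1 / (p : ℝ) * (1 / (p' : ℝ))) := by
    rw [← sum_ind, ← sum_ind, ← sum_ind, Finset.sum_mul, Finset.sum_mul, ← Finset.sum_sub_distrib,
      ← Finset.sum_sub_distrib]
    have : (N : ℝ) * (1 / (p : ℝ) * (1 / (p' : ℝ))) =
        ∑ n ∈ Ioc 0 N, (1 / (p : ℝ) * (1 / (p' : ℝ))) := by
      rw [Finset.sum_const, Nat.card_Ioc, nsmul_eq_mul, Nat.sub_zero]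
    rw [this, ← Finset.sum_add_distrib]
    refine Finset.sum_congr rfl fun n _ => ?_
    unfold tt
    have h1 : (if p * p' ∣ n then (1:ℝ) else 0) = (if p ∣ n then 1 else 0) * (if p' ∣ n then 1 else 0) := by
      by_cases h : p ∣ n
      · by_cases h' : p' ∣ n
        · rw [if_pos h, if_pos h', if_pos (hc.mul_dvd_of_dvd_of_dvd h h')]; norm_num
        · rw [if_pos h, if_neg h', if_neg (fun hx => h' ((Dvd.intro_left p rfl).trans hx))]; norm_num
      · rw [if_neg h, if_neg (fun hx => h ((Dvd.intro p' rfl).trans hx))]; norm_num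
    rw [h1]
    ring
  rw [e]
  have a1 := fl_le N (p * p')
  have a2 := fl_ge N (p * p') (by positivity)
  have b1 := fl_le N p
  have b2 := fl_ge N p (by omega)
  have c1 := fl_le N p'
  have c2 := fl_ge N p' (by omega)
  push_cast at a1 a2
  have d1 := mul_le_mul_of_nonneg_right b1 (show 0 ≤ 1 / (p' : ℝ) by positivity)
  have d2 := mul_le_mul_of_nonneg_right b2 (show 0 ≤ 1 / (p' : ℝ) by positivity)
  have d3 := mul_le_mul_of_nonneg_right c1 (show 0 ≤ 1 / (p : ℝ) by positivity)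
  have d4 := mul_le_mul_of_nonneg_right c2 (show 0 ≤ 1 / (p : ℝ) by positivity)
  have e1 : (N : ℝ) / p * (1 / p') = N / (p * p') := by field_simp
  have e2 : (N : ℝ) / p' * (1 / p) = N / (p * p') := by field_simp
  have e3 : (N : ℝ) * (1 / p * (1 / p')) = N / (p * p') := by field_simp
  have f1 : 1 / (p : ℝ) ≤ 1 / 2 := by
    apply one_div_le_one_div_of_le (by norm_num)
    exact_mod_cast hp
  have f2 : 1 / (p' : ℝ) ≤ 1 / 2 := by
    apply one_div_le_one_div_of_le (by norm_num)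
    exact_mod_cast hp'
  rw [sub_mul, e1] at d2
  rw [sub_mul, e2] at d4
  rw [e1] at d1
  rw [e2] at d3
  rw [e3, abs_le]
  constructor <;> linarith

theorem tt_self {p : ℕ} (hp : 2 ≤ p) (N : ℕ) :
    |∑ n ∈ Ioc 0 N, tt p n * tt p n| ≤ N / p := by
  have hp0 : (0:ℝ) < p := by exact_mod_cast (by omega : 0 < p)
  have hnn : 0 ≤ ∑ n ∈ Ioc 0 N, tt p n * tt p n := Finset.sum_nonneg fun n _ => mul_self_nonneg _
  rw [abs_of_nonneg hnn]
  have e : ∑ n ∈ Ioc 0 N, tt p n * tt p n = ((N / p : ℕ) : ℝ) * (1 - 2 / (p : ℝ)) +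
      N * (1 / (p : ℝ) * (1 / (p : ℝ))) := by
    rw [← sum_ind, Finset.sum_mul]
    have : (N : ℝ) * (1 / (p : ℝ) * (1 / (p : ℝ))) =
        ∑ n ∈ Ioc 0 N, (1 / (p : ℝ) * (1 / (p : ℝ))) := by
      rw [Finset.sum_const, Nat.card_Ioc, nsmul_eq_mul, Nat.sub_zero]
    rw [this, ← Finset.sum_add_distrib]
    refine Finset.sum_congr rfl fun n _ => ?_
    unfold tt
    split_ifs <;> ring
  rw [e]
  have hp2 : (2:ℝ) ≤ p := by exact_mod_cast hp
  have b1 := fl_le N p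
  have h0 : 0 ≤ 1 - 2 / (p : ℝ) := by
    rw [sub_nonneg, div_le_one hp0]
    exact hp2
  have d1 := mul_le_mul_of_nonneg_right b1 h0
  have e1 : (N : ℝ) / p * (1 - 2 / p) + N * (1 / p * (1 / p)) = N / p - N / p * (1 / p) := by
    field_simp
    ring
  have e2 : 0 ≤ (N : ℝ) / p * (1 / p) := by positivity
  linarith

/-- the Turan-Kubilius inequality for small primes -/
theorem tk (P : Finset ℕ) (hP : ∀ p ∈ P, p.Prime) (a : ℕ → ℂ) (ha : ∀ p ∈ P, ‖a p‖ ≤ 2) (N : ℕ) :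
    ∑ n ∈ Ioc 0 N, ‖∑ p ∈ P, a p * (tt p n : ℂ)‖ ^ 2 ≤
      N * ∑ p ∈ P, ‖a p‖ ^ 2 / p + 4 * (P.card : ℝ) ^ 2 := by
  have e1 : ∀ n, ((‖∑ p ∈ P, a p * (tt p n : ℂ)‖ ^ 2 : ℝ) : ℂ) =
      ∑ p ∈ P, ∑ p' ∈ P, a p * (starRingEnd ℂ) (a p') * ((tt p n * tt p' n : ℝ) : ℂ) := by
    intro n
    rw [← Complex.normSq_eq_norm_sq, ← Complex.mul_conj, map_sum, Finset.sum_mul_sum]
    refine Finset.sum_congr rfl fun p _ => Finset.sum_congr rfl fun p' _ => ?_
    rw [map_mul, Complex.conj_ofReal]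
    push_cast
    ring
  have e2 : ((∑ n ∈ Ioc 0 N, ‖∑ p ∈ P, a p * (tt p n : ℂ)‖ ^ 2 : ℝ) : ℂ) =
      ∑ p ∈ P, ∑ p' ∈ P, a p * (starRingEnd ℂ) (a p') *
        ((∑ n ∈ Ioc 0 N, tt p n * tt p' n : ℝ) : ℂ) := by
    rw [Complex.ofReal_sum, Finset.sum_congr rfl fun n _ => e1 n, Finset.sum_comm]
    refine Finset.sum_congr rfl fun p _ => ?_
    rw [Finset.sum_comm]
    refine Finset.sum_congr rfl fun p' _ => ?_
    rw [Complex.ofReal_sum, Finset.mul_sum]
  have hnn : 0 ≤ ∑ n ∈ Ioc 0 N, ‖∑ p ∈ P, a p * (tt p n : ℂ)‖ ^ 2 :=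
    Finset.sum_nonneg fun n _ => by positivity
  have e3 : ∑ n ∈ Ioc 0 N, ‖∑ p ∈ P, a p * (tt p n : ℂ)‖ ^ 2 =
      ‖((∑ n ∈ Ioc 0 N, ‖∑ p ∈ P, a p * (tt p n : ℂ)‖ ^ 2 : ℝ) : ℂ)‖ := by
    rw [Complex.norm_real, Real.norm_of_nonneg hnn]
  rw [e3, e2]
  refine (norm_sum_le _ _).trans ?_
  have h1 : ∀ p ∈ P, ‖∑ p' ∈ P, a p * (starRingEnd ℂ) (a p') *
        ((∑ n ∈ Ioc 0 N, tt p n * tt p' n : ℝ) : ℂ)‖ ≤ N * (‖a p‖ ^ 2 / p) + 4 * P.card := by
    intro p hp
    refine (norm_sum_le _ _).trans ?_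
    have h2 : ∀ p' ∈ P, ‖a p * (starRingEnd ℂ) (a p') *
        ((∑ n ∈ Ioc 0 N, tt p n * tt p' n : ℝ) : ℂ)‖ ≤
        (if p' = p then N * (‖a p‖ ^ 2 / p) else 0) + 4 := by
      intro p' hp'
      rw [norm_mul, norm_mul, RCLike.norm_conj, Complex.norm_real, Real.norm_eq_abs]
      by_cases h : p' = p
      · subst h
        rw [if_pos rfl]
        have h3 := tt_self (hP p' hp).two_le N
        have h4 := mul_le_mul_of_nonneg_left h3 (show 0 ≤ ‖a p'‖ * ‖a p'‖ by positivity)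
        have e : ‖a p'‖ * ‖a p'‖ * (N / p') = N * (‖a p'‖ ^ 2 / p') := by ring
        linarith
      · rw [if_neg h]
        have h3 := tt_ne (hP p hp).two_le (hP p' hp').two_le
          ((Nat.coprime_primes (hP p hp) (hP p' hp')).2 (Ne.symm h)) N
        have h4 := mul_le_mul (mul_le_mul (ha p hp) (ha p' hp') (norm_nonneg _) (by norm_num)) h3
          (abs_nonneg _) (by norm_num)
        linarith
    refine (Finset.sum_le_sum h2).trans ?_
    rw [Finset.sum_add_distrib, Finset.sum_ite_eq' P p, if_pos hp, Finset.sum_const, nsmul_eq_mul]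
    linarith
  refine (Finset.sum_le_sum h1).trans ?_
  rw [Finset.sum_add_distrib, ← Finset.mul_sum, Finset.sum_const, nsmul_eq_mul]
  apply le_of_eq
  ring

theorem l1_of_l2 (N : ℕ) (f : ℕ → ℝ) (C : ℝ) (h : ∑ n ∈ Ioc 0 N, f n ^ 2 ≤ N * C ^ 2) (hC : 0 ≤ C) :
    ∑ n ∈ Ioc 0 N, f n ≤ N * C := by
  have h1 := sq_sum_le_card_mul_sum_sq (s := Ioc 0 N) (f := f)
  rw [Nat.card_Ioc, Nat.sub_zero] at h1
  have h2 : (∑ n ∈ Ioc 0 N, f n) ^ 2 ≤ (N * C) ^ 2 := by
    refine h1.trans ?_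
    calc (N : ℝ) * ∑ n ∈ Ioc 0 N, f n ^ 2 ≤ N * (N * C ^ 2) :=
          mul_le_mul_of_nonneg_left h (Nat.cast_nonneg _)
      _ = (N * C) ^ 2 := by ring
  exact abs_le_of_sq_le_sq' h2 (by positivity) |>.2

/-- few large prime factors -/
theorem few (z N n : ℕ) (hn : 1 ≤ n) (hN : n ≤ N) (hz : N < (z + 1) ^ 3) (P : Finset ℕ)
    (hP : ∀ p ∈ P, p.Prime ∧ z < p) : (P.filter (· ∣ n)).card ≤ 2 := by
  by_contra hc
  push Not at hc
  have h1 : ∏ p ∈ P.filter (· ∣ n), p ∣ n := by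
    apply Finset.prod_primes_dvd n
    · intro p hp
      exact (hP p (Finset.mem_filter.1 hp).1).1.prime
    · intro p hp
      exact (Finset.mem_filter.1 hp).2
  have h2 : (z + 1) ^ (P.filter (· ∣ n)).card ≤ ∏ p ∈ P.filter (· ∣ n), p := by
    rw [← Finset.prod_const]
    apply Finset.prod_le_prod' 
    intro p hp
    exact (hP p (Finset.mem_filter.1 hp).1).2
  have h3 : (z + 1) ^ 3 ≤ (z + 1) ^ (P.filter (· ∣ n)).card := Nat.pow_le_pow_right (by omega) hc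
  have h4 := Nat.le_of_dvd (by omega) h1
  omega

/-- contribution of the large primes -/
theorem large (z N : ℕ) (hz : N < (z + 1) ^ 3) (P : Finset ℕ)
    (hP : ∀ p ∈ P, p.Prime ∧ z < p) (b : ℕ → ℝ) (C : ℝ) (hC : 0 ≤ C)
    (hs : 2 * ∑ p ∈ P, b p ^ 2 / p ≤ C ^ 2) :
    ∑ n ∈ Ioc 0 N, ∑ p ∈ P, (if p ∣ n then b p else 0) ≤ N * C := by
  apply l1_of_l2 _ _ _ _ hC
  have h1 : ∀ n ∈ Ioc 0 N, (∑ p ∈ P, (if p ∣ n then b p else 0)) ^ 2 ≤
      2 * ∑ p ∈ P, (if p ∣ n then b p ^ 2 else 0) := by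
    intro n hn
    rw [Finset.mem_Ioc] at hn
    rw [← Finset.sum_filter, ← Finset.sum_filter]
    refine (sq_sum_le_card_mul_sum_sq).trans ?_
    apply mul_le_mul_of_nonneg_right _ (Finset.sum_nonneg fun _ _ => by positivity)
    exact_mod_cast few z N n hn.1 hn.2 hz P hP
  refine (Finset.sum_le_sum h1).trans ?_
  rw [← Finset.mul_sum, Finset.sum_comm]
  have h2 : ∑ p ∈ P, ∑ n ∈ Ioc 0 N, (if p ∣ n then b p ^ 2 else 0) ≤
      ∑ p ∈ P, N * (b p ^ 2 / p) := Finset.sum_le_sum fun p _ => cnt N p _ (by positivity)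
  rw [← Finset.mul_sum] at h2
  calc 2 * ∑ p ∈ P, ∑ n ∈ Ioc 0 N, (if p ∣ n then b p ^ 2 else 0)
      ≤ 2 * (N * ∑ p ∈ P, b p ^ 2 / p) := by linarith
    _ = N * (2 * ∑ p ∈ P, b p ^ 2 / p) := by ring
    _ ≤ N * C ^ 2 := mul_le_mul_of_nonneg_left hs (Nat.cast_nonneg _)

/-! ### the pointwise bound -/

section point

variable {q : ℕ} {χ : DirichletCharacter ℂ q} {h : ℕ → ℂ}

theorem pt2 (hh : BM h) (h1 : h 1 = 1) (Y J N n : ℕ) (hn : 1 ≤ n) (hN : n ≤ N) (B : ℂ) :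
    ‖h n - Complex.exp (B.im * Complex.I) * ww h χ Y J n‖ ≤
      ∑ p ∈ (Ioc Y N).filter Nat.Prime,
        ((if p ∣ n then 2 * ‖aa h χ p‖ ^ 2 else 0) + if p ^ 2 ∣ n then 2 else 0) +
      ∑ p ∈ (Icc 1 Y).filter Nat.Prime, (if p ^ J ∣ n then 1 else 0) +
      ‖(∑ p ∈ (Ioc Y N).filter Nat.Prime, if p ∣ n then aa h χ p else 0) - B‖ + |B.re| := by
  have hs1 : (0 : ℝ) ≤ ∑ p ∈ (Ioc Y N).filter Nat.Prime,
      ((if p ∣ n then 2 * ‖aa h χ p‖ ^ 2 else 0) + if p ^ 2 ∣ n then 2 else 0) := by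
    refine Finset.sum_nonneg fun p _ => ?_
    have : 0 ≤ 2 * ‖aa h χ p‖ ^ 2 := by positivity
    split_ifs <;> linarith
  have hs2 : (0 : ℝ) ≤ ∑ p ∈ (Icc 1 Y).filter Nat.Prime, if p ^ J ∣ n then 1 else 0 := by
    refine Finset.sum_nonneg fun p _ => ?_
    split_ifs <;> norm_num
  have hs3 := norm_nonneg ((∑ p ∈ (Ioc Y N).filter Nat.Prime, if p ∣ n then aa h χ p else 0) - B)
  have hs4 := abs_nonneg B.re
  have hu : ‖Complex.exp (B.im * Complex.I)‖ = 1 := Complex.norm_exp_ofReal_mul_I _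
  by_cases hex : ∃ p ∈ (Icc 1 Y).filter Nat.Prime, p ^ J ∣ n
  · unfold ww
    rw [if_pos hex, mul_zero, sub_zero]
    obtain ⟨p, hp, hd⟩ := hex
    have k1 : (1 : ℝ) ≤ ∑ p ∈ (Icc 1 Y).filter Nat.Prime, if p ^ J ∣ n then 1 else 0 := by
      calc (1 : ℝ) = if p ^ J ∣ n then 1 else 0 := by rw [if_pos hd]
        _ ≤ _ := Finset.single_le_sum (f := fun p => if p ^ J ∣ n then (1 : ℝ) else 0)
          (fun r _ => by positivity) hp
    have k2 := hh.1 n
    linarith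
  · have hY : ∀ p, p.Prime → p ≤ Y → ¬ p ^ J ∣ n := by
      intro p hp hpY hd
      exact hex ⟨p, Finset.mem_filter.2 ⟨Finset.mem_Icc.2 ⟨hp.one_le, hpY⟩, hp⟩, hd⟩
    unfold ww
    rw [if_neg hex]
    obtain ⟨g, hg⟩ : ∃ g, g = n.gcd (MM Y J) := ⟨_, rfl⟩
    have hgn : g ∣ n := by rw [hg]; exact Nat.gcd_dvd_left _ _
    have hgM : g ∣ MM Y J := by rw [hg]; exact Nat.gcd_dvd_right _ _
    have hnd : ∀ p, p.Prime → p ≤ Y → ¬ p ∣ n / g := by
      intro p hp hpY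
      rw [hg]
      exact not_dvd hn hp hpY (hY p hp hpY)
    rw [← hg]
    obtain ⟨m, hm⟩ := hgn
    have hg0 : 0 < g := by
      rcases Nat.eq_zero_or_pos g with h | h
      · subst h; omega
      · exact h
    have hm0 : 1 ≤ m := by
      rcases Nat.eq_zero_or_pos m with h | h
      · subst h; omega
      · exact h
    have e1 : n / g = m := by rw [hm]; exact Nat.mul_div_cancel_left _ hg0
    rw [e1] at hnd ⊢
    have hcop : Nat.Coprime g m := by
      refine Nat.coprime_of_dvd fun p hp h2 h3 => ?_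
      exact hnd p hp (le_of_dvd_MM hp (h2.trans hgM)) h3
    have e2 : h n = h g * h m := by rw [hm]; exact hh.2 g m hg0 hm0 hcop
    have hmn : m ∣ n := ⟨g, by rw [hm, mul_comm]⟩
    have hset : m.primeFactors = ((Ioc Y N).filter Nat.Prime).filter (· ∣ n) := by
      ext p
      rw [Finset.mem_filter, Finset.mem_filter, Finset.mem_Ioc]
      constructor
      · intro hp
        have hp1 := Nat.prime_of_mem_primeFactors hp
        have hp2 := Nat.dvd_of_mem_primeFactors hp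
        refine ⟨⟨⟨?_, ?_⟩, hp1⟩, hp2.trans hmn⟩
        · by_contra hc
          push Not at hc
          exact hnd p hp1 hc hp2
        · exact (Nat.le_of_dvd (by omega) (hp2.trans hmn)).trans hN
      · rintro ⟨⟨⟨h2, _⟩, h3⟩, h4⟩
        rw [Nat.mem_primeFactors]
        refine ⟨h3, ?_, by omega⟩
        rw [hm] at h4
        rcases (Nat.Prime.dvd_mul h3).1 h4 with h5 | h5
        · have := le_of_dvd_MM h3 (h5.trans hgM)
          omega
        · exact h5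
    have hS : ∑ p ∈ m.primeFactors, aa h χ p =
        ∑ p ∈ (Ioc Y N).filter Nat.Prime, if p ∣ n then aa h χ p else 0 := by
      rw [hset, Finset.sum_filter]
    have k2 := tele2 (χ := χ) hh h1 m hm0
    have k3 : ∑ p ∈ m.primeFactors, (2 * ‖aa h χ p‖ ^ 2 + if p ^ 2 ∣ m then 2 else 0) ≤
        ∑ p ∈ (Ioc Y N).filter Nat.Prime,
          ((if p ∣ n then 2 * ‖aa h χ p‖ ^ 2 else 0) + if p ^ 2 ∣ n then 2 else 0) := by
      rw [hset]
      calc ∑ p ∈ ((Ioc Y N).filter Nat.Prime).filter (· ∣ n),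
              (2 * ‖aa h χ p‖ ^ 2 + if p ^ 2 ∣ m then (2 : ℝ) else 0)
          ≤ ∑ p ∈ ((Ioc Y N).filter Nat.Prime).filter (· ∣ n),
              ((if p ∣ n then 2 * ‖aa h χ p‖ ^ 2 else 0) + if p ^ 2 ∣ n then 2 else 0) := by
            refine Finset.sum_le_sum fun p hp => ?_
            have hp2 := (Finset.mem_filter.1 hp).2
            rw [if_pos hp2]
            have : (if p ^ 2 ∣ m then (2 : ℝ) else 0) ≤ if p ^ 2 ∣ n then 2 else 0 := by
              by_cases h : p ^ 2 ∣ m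
              · rw [if_pos h, if_pos (h.trans hmn)]
              · rw [if_neg h]; split_ifs <;> norm_num
            linarith
        _ ≤ _ := by
            refine Finset.sum_le_sum_of_subset_of_nonneg (Finset.filter_subset _ _) fun p _ _ => ?_
            have : 0 ≤ 2 * ‖aa h χ p‖ ^ 2 := by positivity
            split_ifs <;> linarith
    rw [← hS]
    rw [e2]
    generalize hSS : ∑ p ∈ m.primeFactors, aa h χ p = S at k2 ⊢
    have hSre : S.re ≤ 0 := by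
      rw [← hSS, Complex.re_sum]
      exact Finset.sum_nonpos fun p _ => aa_re_le hh p
    have k4 : ‖Complex.exp S - Complex.exp (B.im * Complex.I)‖ ≤ ‖S - B‖ + |B.re| := by
      have a1 := exp_lip (z := S) (w := B.im * Complex.I) hSre (by simp)
      have a2 : S - B.im * Complex.I = (S - B) + (B.re : ℂ) := by
        have := Complex.re_add_im B
        linear_combination -this
      rw [a2] at a1
      refine a1.trans ((norm_add_le _ _).trans ?_)
      rw [Complex.norm_real, Real.norm_eq_abs]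
    have e3 : h g * h m - Complex.exp (B.im * Complex.I) * (h g * χ ((m : ℕ) : ZMod q)) =
        h g * ((h m - χ ((m : ℕ) : ZMod q) * Complex.exp S) +
          χ ((m : ℕ) : ZMod q) * (Complex.exp S - Complex.exp (B.im * Complex.I))) := by ring
    rw [e3, norm_mul]
    have k5 : ‖h g‖ * ‖(h m - χ ((m : ℕ) : ZMod q) * Complex.exp S) +
          χ ((m : ℕ) : ZMod q) * (Complex.exp S - Complex.exp (B.im * Complex.I))‖ ≤
        ‖(h m - χ ((m : ℕ) : ZMod q) * Complex.exp S) +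
          χ ((m : ℕ) : ZMod q) * (Complex.exp S - Complex.exp (B.im * Complex.I))‖ :=
      mul_le_of_le_one_left (norm_nonneg _) (hh.1 g)
    have k6 := norm_add_le (h m - χ ((m : ℕ) : ZMod q) * Complex.exp S)
      (χ ((m : ℕ) : ZMod q) * (Complex.exp S - Complex.exp (B.im * Complex.I)))
    have k7 : ‖χ ((m : ℕ) : ZMod q) * (Complex.exp S - Complex.exp (B.im * Complex.I))‖ ≤
        ‖Complex.exp S - Complex.exp (B.im * Complex.I)‖ := by
      rw [norm_mul]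
      exact mul_le_of_le_one_left (norm_nonneg _) (DirichletCharacter.norm_le_one χ _)
    linarith

/-- the average -/
theorem avg2 (hh : BM h) (h1 : h 1 = 1) (Y J N z : ℕ) (hYz : Y ≤ z) (hzN : z ≤ N)
    (hz3 : N < (z + 1) ^ 3) (B : ℂ) (hB : B = ∑ p ∈ (Ioc Y z).filter Nat.Prime, aa h χ p / p)
    (C₁ C₂ : ℝ) (hC₁ : 0 ≤ C₁) (hC₂ : 0 ≤ C₂)
    (hc₁ : N * ∑ p ∈ (Ioc Y z).filter Nat.Prime, ‖aa h χ p‖ ^ 2 / p + 4 * (z : ℝ) ^ 2 ≤ N * C₁ ^ 2)
    (hc₂ : 2 * ∑ p ∈ (Ioc z N).filter Nat.Prime, ‖aa h χ p‖ ^ 2 / p ≤ C₂ ^ 2) :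
    ∑ n ∈ range N, ‖h n - Complex.exp (B.im * Complex.I) * ww h χ Y J n‖ ≤ 2 +
      N * (∑ p ∈ (Ioc Y N).filter Nat.Prime, (2 * ‖aa h χ p‖ ^ 2 / p + 2 * (1 / (p : ℝ) ^ 2)) +
        ∑ p ∈ (Icc 1 Y).filter Nat.Prime, (1 / (p : ℝ) ^ J) + C₁ + C₂ + |B.re|) := by
  set u := Complex.exp (B.im * Complex.I) with hu
  have hu1 : ‖u‖ = 1 := Complex.norm_exp_ofReal_mul_I _
  have k1 : ∑ n ∈ range N, ‖h n - u * ww h χ Y J n‖ ≤
      ‖h 0 - u * ww h χ Y J 0‖ + ∑ n ∈ Ioc 0 N, ‖h n - u * ww h χ Y J n‖ := by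
    have : range N ⊆ insert 0 (Ioc 0 N) := by
      intro n hn
      rw [Finset.mem_range] at hn
      rw [Finset.mem_insert, Finset.mem_Ioc]
      omega
    refine (Finset.sum_le_sum_of_subset_of_nonneg this fun _ _ _ => norm_nonneg _).trans ?_
    rw [Finset.sum_insert (by simp)]
  have k2 : ‖h 0 - u * ww h χ Y J 0‖ ≤ 2 := by
    have a1 := hh.1 0
    have a2 := ww_le h hh χ Y J 0
    have a3 := norm_sub_le (h 0) (u * ww h χ Y J 0)
    rw [norm_mul, hu1, one_mul] at a3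
    linarith
  have hunion : (Ioc Y N).filter Nat.Prime =
      (Ioc Y z).filter Nat.Prime ∪ (Ioc z N).filter Nat.Prime := by
    rw [← Finset.filter_union, Finset.Ioc_union_Ioc_eq_Ioc hYz hzN]
  have hdisj : Disjoint ((Ioc Y z).filter Nat.Prime) ((Ioc z N).filter Nat.Prime) := by
    rw [Finset.disjoint_left]
    intro p hp hp'
    rw [Finset.mem_filter, Finset.mem_Ioc] at hp hp'
    omega
  have hsplit : ∀ n : ℕ, ‖(∑ p ∈ (Ioc Y N).filter Nat.Prime, if p ∣ n then aa h χ p else 0) - B‖ ≤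
      ‖∑ p ∈ (Ioc Y z).filter Nat.Prime, aa h χ p * (tt p n : ℂ)‖ +
        ∑ p ∈ (Ioc z N).filter Nat.Prime, (if p ∣ n then ‖aa h χ p‖ else 0) := by
    intro n
    rw [hunion, Finset.sum_union hdisj]
    have e1 : (∑ p ∈ (Ioc Y z).filter Nat.Prime, (if p ∣ n then aa h χ p else 0) +
        ∑ p ∈ (Ioc z N).filter Nat.Prime, (if p ∣ n then aa h χ p else 0)) - B =
        ∑ p ∈ (Ioc Y z).filter Nat.Prime, aa h χ p * (tt p n : ℂ) +
        ∑ p ∈ (Ioc z N).filter Nat.Prime, (if p ∣ n then aa h χ p else 0) := by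
      have : ∑ p ∈ (Ioc Y z).filter Nat.Prime, aa h χ p * (tt p n : ℂ) =
          ∑ p ∈ (Ioc Y z).filter Nat.Prime, (if p ∣ n then aa h χ p else 0) - B := by
        rw [hB, ← Finset.sum_sub_distrib]
        refine Finset.sum_congr rfl fun p _ => ?_
        unfold tt
        split_ifs
        · push_cast; ring
        · push_cast; ring
      rw [this]
      ring
    rw [e1]
    refine (norm_add_le _ _).trans (add_le_add le_rfl ((norm_sum_le _ _).trans ?_))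
    refine Finset.sum_le_sum fun p _ => ?_
    split_ifs <;> simp
  have k3 : ∑ n ∈ Ioc 0 N, ‖h n - u * ww h χ Y J n‖ ≤ ∑ n ∈ Ioc 0 N,
      (∑ p ∈ (Ioc Y N).filter Nat.Prime,
        ((if p ∣ n then 2 * ‖aa h χ p‖ ^ 2 else 0) + if p ^ 2 ∣ n then 2 else 0) +
      ∑ p ∈ (Icc 1 Y).filter Nat.Prime, (if p ^ J ∣ n then 1 else 0) +
      (‖∑ p ∈ (Ioc Y z).filter Nat.Prime, aa h χ p * (tt p n : ℂ)‖ +
        ∑ p ∈ (Ioc z N).filter Nat.Prime, (if p ∣ n then ‖aa h χ p‖ else 0)) + |B.re|) := by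
    refine Finset.sum_le_sum fun n hn => ?_
    rw [Finset.mem_Ioc] at hn
    have a1 := pt2 (χ := χ) hh h1 Y J N n hn.1 hn.2 B
    have a2 := hsplit n
    linarith
  rw [Finset.sum_add_distrib, Finset.sum_add_distrib, Finset.sum_add_distrib,
    Finset.sum_add_distrib, Finset.sum_comm, Finset.sum_comm (s := Ioc 0 N)
    (t := (Icc 1 Y).filter Nat.Prime), Finset.sum_const, Nat.card_Ioc, nsmul_eq_mul] at k3
  have k4 : ∑ p ∈ (Ioc Y N).filter Nat.Prime, ∑ n ∈ Ioc 0 N,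
      ((if p ∣ n then 2 * ‖aa h χ p‖ ^ 2 else 0) + if p ^ 2 ∣ n then (2 : ℝ) else 0) ≤
      ∑ p ∈ (Ioc Y N).filter Nat.Prime, N * (2 * ‖aa h χ p‖ ^ 2 / p + 2 * (1 / (p : ℝ) ^ 2)) := by
    refine Finset.sum_le_sum fun p _ => ?_
    rw [Finset.sum_add_distrib]
    have a1 := cnt N p (2 * ‖aa h χ p‖ ^ 2) (by positivity)
    have a2 := cnt N (p ^ 2) 2 (by norm_num)
    push_cast at a2
    have : (N : ℝ) * (2 * ‖aa h χ p‖ ^ 2 / p + 2 * (1 / (p : ℝ) ^ 2)) =
        N * (2 * ‖aa h χ p‖ ^ 2 / p) + N * (2 / (p : ℝ) ^ 2) := by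
      ring
    linarith
  have k5 : ∑ p ∈ (Icc 1 Y).filter Nat.Prime, ∑ n ∈ Ioc 0 N, (if p ^ J ∣ n then (1 : ℝ) else 0) ≤
      ∑ p ∈ (Icc 1 Y).filter Nat.Prime, (N * (1 / (p : ℝ) ^ J)) := by
    refine Finset.sum_le_sum fun p _ => ?_
    have a2 := cnt N (p ^ J) 1 (by norm_num)
    push_cast at a2
    exact a2
  have k6 : ∑ n ∈ Ioc 0 N, ‖∑ p ∈ (Ioc Y z).filter Nat.Prime, aa h χ p * (tt p n : ℂ)‖ ≤ N * C₁ := by
    apply l1_of_l2 _ _ _ _ hC₁
    refine (tk _ (fun p hp => (Finset.mem_filter.1 hp).2) _ (fun p _ => aa_le hh p) N).trans ?_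
    refine le_trans ?_ hc₁
    have hcard : ((((Ioc Y z).filter Nat.Prime).card : ℕ) : ℝ) ≤ z := by
      have : ((Ioc Y z).filter Nat.Prime).card ≤ z := by
        refine (Finset.card_filter_le _ _).trans ?_
        rw [Nat.card_Ioc]
        omega
      exact_mod_cast this
    have : ((((Ioc Y z).filter Nat.Prime).card : ℕ) : ℝ) ^ 2 ≤ (z : ℝ) ^ 2 :=
      pow_le_pow_left₀ (Nat.cast_nonneg _) hcard 2
    linarith
  have k7 : ∑ n ∈ Ioc 0 N, ∑ p ∈ (Ioc z N).filter Nat.Prime, (if p ∣ n then ‖aa h χ p‖ else 0) ≤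
      N * C₂ := by
    refine large z N hz3 _ (fun p hp => ?_) _ C₂ hC₂ hc₂
    rw [Finset.mem_filter, Finset.mem_Ioc] at hp
    exact ⟨hp.2, hp.1.1⟩
  rw [← Finset.mul_sum] at k4 k5
  have e0 : ((N - 0 : ℕ) : ℝ) = N := by rw [Nat.sub_zero]
  rw [e0] at k3
  have e : (N : ℝ) * (∑ p ∈ (Ioc Y N).filter Nat.Prime,
        (2 * ‖aa h χ p‖ ^ 2 / p + 2 * (1 / (p : ℝ) ^ 2)) +
        ∑ p ∈ (Icc 1 Y).filter Nat.Prime, (1 / (p : ℝ) ^ J) + C₁ + C₂ + |B.re|) =
      N * ∑ p ∈ (Ioc Y N).filter Nat.Prime, (2 * ‖aa h χ p‖ ^ 2 / p + 2 * (1 / (p : ℝ) ^ 2)) +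
      N * ∑ p ∈ (Icc 1 Y).filter Nat.Prime, (1 / (p : ℝ) ^ J) + N * C₁ + N * C₂ + N * |B.re| := by
    ring
  rw [e]
  linarith

end point

/-- APX2 -/
theorem apx2 : S_APX2 := by
  intro q hq χ h hh hsum ε hε
  by_cases h1 : h 1 = 1
  swap
  · -- `h` vanishes on the positive integers
    have h10 : h 1 = 0 := by
      have := hh.2 1 1 le_rfl le_rfl (Nat.coprime_one_left 1)
      rw [mul_one] at this
      have h2 : h 1 * (h 1 - 1) = 0 := by linear_combination -this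
      rcases mul_eq_zero.1 h2 with h3 | h3
      · exact h3
      · exact absurd (sub_eq_zero.1 h3) h1
    have hz : ∀ n, 1 ≤ n → h n = 0 := by
      intro n hn
      have := hh.2 n 1 hn le_rfl (Nat.coprime_one_right n)
      rw [mul_one, h10, mul_zero] at this
      exact this
    refine ⟨1, fun _ => 0, le_rfl, fun _ => by simp, fun _ => rfl, ⌈1 / ε⌉₊,
      fun N hN => ⟨1, by simp, ?_⟩⟩
    have k1 : ∑ n ∈ range N, ‖h n - 1 * 0‖ ≤ ‖h 0‖ := by
      have : range N ⊆ insert 0 (Ioc 0 N) := by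
        intro n hn
        rw [Finset.mem_range] at hn
        rw [Finset.mem_insert, Finset.mem_Ioc]
        omega
      refine (Finset.sum_le_sum_of_subset_of_nonneg this fun _ _ _ => norm_nonneg _).trans ?_
      rw [Finset.sum_insert (by simp), mul_zero, sub_zero]
      have : ∑ n ∈ Ioc 0 N, ‖h n - 0‖ = 0 := by
        refine Finset.sum_eq_zero fun n hn => ?_
        rw [hz n (Finset.mem_Ioc.1 hn).1]
        simp
      rw [this, add_zero]
    have k2 := hh.1 0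
    have k3 : 1 / ε ≤ N := (Nat.le_ceil _).trans (by exact_mod_cast hN)
    rw [div_le_iff₀ hε] at k3
    linarith
  · -- the main case
    obtain ⟨η, hη⟩ : ∃ η : ℝ, η = ε / 8 := ⟨_, rfl⟩
    have hη0 : 0 < η := by rw [hη]; positivity
    obtain ⟨δ, hδ0, hδ1, hδ2⟩ : ∃ δ : ℝ, 0 < δ ∧ 4 * δ ≤ η ^ 2 ∧ 8 * δ ≤ η := by
      refine ⟨min (η ^ 2 / 4) (η / 8), by positivity, ?_, ?_⟩
      · have := min_le_left (η ^ 2 / 4) (η / 8)
        linarith
      · have := min_le_right (η ^ 2 / 4) (η / 8)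
        linarith
    obtain ⟨s1, hs1⟩ := summable_iff_vanishing_norm.1 hsum δ hδ0
    obtain ⟨s2, hs2⟩ := summable_iff_vanishing_norm.1
      (Real.summable_one_div_nat_pow.2 (by norm_num : 1 < 2)) (η / 4) (by positivity)
    obtain ⟨Y, hY⟩ : ∃ Y : ℕ, (∀ p ∈ s1, (p : ℕ) ≤ Y) ∧ ∀ p ∈ s2, p ≤ Y := by
      refine ⟨max (s1.sup fun p => (p : ℕ)) (s2.sup id), fun p hp => ?_, fun p hp => ?_⟩
      · exact (Finset.le_sup (f := fun p : Nat.Primes => (p : ℕ)) hp).trans (le_max_left _ _)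
      · exact (Finset.le_sup (f := id) hp).trans (le_max_right _ _)
    obtain ⟨J, hJ⟩ : ∃ J : ℕ, (Y : ℝ) * (1 / 2) ^ J ≤ η := by
      obtain ⟨J, hJ⟩ := exists_pow_lt_of_lt_one (show (0 : ℝ) < η / (Y + 1) by positivity)
        (show (1 / 2 : ℝ) < 1 by norm_num)
      refine ⟨J, ?_⟩
      rw [lt_div_iff₀ (by positivity)] at hJ
      have : (0 : ℝ) ≤ (1 / 2) ^ J := by positivity
      nlinarith
    have b1 : ∀ a N : ℕ, Y ≤ a → ∑ p ∈ (Ioc a N).filter Nat.Prime, rr h χ p / p ≤ δ := by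
      intro a N ha
      have e : ∑ p ∈ ((Ioc a N).filter Nat.Prime).subtype Nat.Prime,
          rr h χ (p : ℕ) / ((p : ℕ) : ℝ) = ∑ p ∈ (Ioc a N).filter Nat.Prime, rr h χ p / p :=
        Finset.sum_subtype_of_mem (fun p => rr h χ p / (p : ℝ)) fun p hp => (Finset.mem_filter.1 hp).2
      rw [← e]
      have hdj : Disjoint (α := Finset Nat.Primes)
          (((Ioc a N).filter Nat.Prime).subtype Nat.Prime) s1 := by
        refine Finset.disjoint_left.2 fun p hp hp2 => ?_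
        have a1 := hY.1 p hp2
        have hp' : (p : ℕ) ∈ (Ioc a N).filter Nat.Prime := Finset.mem_subtype.1 hp
        rw [Finset.mem_filter, Finset.mem_Ioc] at hp'
        omega
      have := hs1 (((Ioc a N).filter Nat.Prime).subtype Nat.Prime) hdj
      exact (le_abs_self _).trans this.le
    have b1' : ∀ a N : ℕ, Y ≤ a → ∑ p ∈ (Ioc a N).filter Nat.Prime, ‖aa h χ p‖ ^ 2 / p ≤ 2 * δ := by
      intro a N ha
      calc ∑ p ∈ (Ioc a N).filter Nat.Prime, ‖aa h χ p‖ ^ 2 / (p : ℝ)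
          ≤ ∑ p ∈ (Ioc a N).filter Nat.Prime, 2 * (rr h χ p / p) := by
            refine Finset.sum_le_sum fun p _ => ?_
            rw [← mul_div_assoc]
            exact div_le_div_of_nonneg_right (aa_sq hh p) (Nat.cast_nonneg _)
        _ = 2 * ∑ p ∈ (Ioc a N).filter Nat.Prime, rr h χ p / p := by rw [Finset.mul_sum]
        _ ≤ 2 * δ := by linarith [b1 a N ha]
    have b2 : ∀ N : ℕ, ∑ p ∈ (Ioc Y N).filter Nat.Prime, (1 / (p : ℝ) ^ 2) ≤ η / 4 := by
      intro N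
      have := hs2 ((Ioc Y N).filter Nat.Prime) (by
        rw [Finset.disjoint_left]
        intro p hp hp2
        have a1 := hY.2 p hp2
        rw [Finset.mem_filter, Finset.mem_Ioc] at hp
        omega)
      exact (le_abs_self _).trans this.le
    have b3 : ∑ p ∈ (Icc 1 Y).filter Nat.Prime, (1 / (p : ℝ) ^ J) ≤ η := by
      refine le_trans ?_ hJ
      calc ∑ p ∈ (Icc 1 Y).filter Nat.Prime, (1 / (p : ℝ) ^ J)
          ≤ ∑ p ∈ (Icc 1 Y).filter Nat.Prime, (1 / 2 : ℝ) ^ J := by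
            refine Finset.sum_le_sum fun p hp => ?_
            have hp2 : (2 : ℝ) ≤ p := by exact_mod_cast (Finset.mem_filter.1 hp).2.two_le
            rw [one_div_pow]
            gcongr
        _ ≤ Y * (1 / 2) ^ J := by
            rw [Finset.sum_const, nsmul_eq_mul]
            refine mul_le_mul_of_nonneg_right ?_ (by positivity)
            have : ((Icc 1 Y).filter Nat.Prime).card ≤ Y := by
              refine (Finset.card_filter_le _ _).trans ?_
              simp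
            exact_mod_cast this
    -- the constant `K`
    obtain ⟨K, hK1, hK⟩ : ∃ K : ℕ, 1 ≤ K ∧ 4 / η ≤ K :=
      ⟨⌈4 / η⌉₊ + 1, by omega, by push_cast; linarith [Nat.le_ceil (4 / η)]⟩
    have hKη : 4 ≤ K * η := by rwa [div_le_iff₀ hη0] at hK
    refine ⟨q * MM Y J, ww h χ Y J, Nat.mul_pos hq (MM_pos _ _), ww_le h hh χ Y J, ww_per h χ Y J,
      max ⌈2 / η⌉₊ ((K * (Y + K ^ 2)) ^ 2), fun N hN => ?_⟩
    have hN1 : ⌈2 / η⌉₊ ≤ N := (le_max_left _ _).trans hN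
    have hN2 : (K * (Y + K ^ 2)) ^ 2 ≤ N := (le_max_right _ _).trans hN
    have hN3 : 2 ≤ N * η := by
      have : 2 / η ≤ N := (Nat.le_ceil _).trans (by exact_mod_cast hN1)
      rwa [div_le_iff₀ hη0] at this
    obtain ⟨z, hz⟩ : ∃ z, z = Nat.sqrt N / K := ⟨_, rfl⟩
    have hs : K * (Y + K ^ 2) ≤ Nat.sqrt N := by
      rw [Nat.le_sqrt']
      exact hN2
    have hz1 : Y + K ^ 2 ≤ z := by
      rw [hz, Nat.le_div_iff_mul_le (by omega), mul_comm]
      exact hs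
    have hzK : z * K ≤ Nat.sqrt N := by rw [hz]; exact Nat.div_mul_le_self _ _
    have hzK2 : (z * K) ^ 2 ≤ N := (Nat.pow_le_pow_left hzK 2).trans (Nat.sqrt_le' N)
    have hYz : Y ≤ z := by omega
    have hzN : z ≤ N := by
      calc z ≤ z * K := Nat.le_mul_of_pos_right _ (by omega)
        _ ≤ Nat.sqrt N := hzK
        _ ≤ N := Nat.sqrt_le_self N
    have hz3 : N < (z + 1) ^ 3 := by
      have a1 : Nat.sqrt N + 1 ≤ K * (z + 1) := by
        have := Nat.lt_mul_div_succ (Nat.sqrt N) (show 0 < K by omega)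
        rw [← hz] at this
        exact this
      have a2 : N < (Nat.sqrt N + 1) ^ 2 := Nat.lt_succ_sqrt' N
      calc N < (Nat.sqrt N + 1) ^ 2 := a2
        _ ≤ (K * (z + 1)) ^ 2 := Nat.pow_le_pow_left a1 2
        _ = K ^ 2 * (z + 1) ^ 2 := by ring
        _ ≤ (z + 1) * (z + 1) ^ 2 := Nat.mul_le_mul_right _ (by omega)
        _ = (z + 1) ^ 3 := by ring
    obtain ⟨B, hB⟩ : ∃ B : ℂ, B = ∑ p ∈ (Ioc Y z).filter Nat.Prime, aa h χ p / p := ⟨_, rfl⟩
    refine ⟨Complex.exp (B.im * Complex.I), Complex.norm_exp_ofReal_mul_I _, ?_⟩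
    have hc₁ : N * ∑ p ∈ (Ioc Y z).filter Nat.Prime, ‖aa h χ p‖ ^ 2 / p + 4 * (z : ℝ) ^ 2 ≤
        N * η ^ 2 := by
      have a1 := b1' Y z le_rfl
      have a2 : ((z : ℝ) * K) ^ 2 ≤ N := by exact_mod_cast hzK2
      have a3 : (16 : ℝ) ≤ (K * η) ^ 2 := by nlinarith
      have a4 : 16 * (z : ℝ) ^ 2 ≤ N * η ^ 2 := by
        calc 16 * (z : ℝ) ^ 2 ≤ (K * η) ^ 2 * (z : ℝ) ^ 2 :=
              mul_le_mul_of_nonneg_right a3 (by positivity)
          _ = ((z : ℝ) * K) ^ 2 * η ^ 2 := by ring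
          _ ≤ N * η ^ 2 := mul_le_mul_of_nonneg_right a2 (by positivity)
      have a5 := mul_le_mul_of_nonneg_left a1 (Nat.cast_nonneg (α := ℝ) N)
      have a6 : (N : ℝ) * (4 * δ) ≤ N * η ^ 2 := mul_le_mul_of_nonneg_left hδ1 (Nat.cast_nonneg _)
      have a7 : 0 ≤ (N : ℝ) * η ^ 2 := by positivity
      linarith
    have hc₂ : 2 * ∑ p ∈ (Ioc z N).filter Nat.Prime, ‖aa h χ p‖ ^ 2 / p ≤ η ^ 2 := by
      have a1 := b1' z N hYz
      linarith
    have k1 := avg2 (χ := χ) hh h1 Y J N z hYz hzN hz3 B hB η η hη0.le hη0.le hc₁ hc₂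
    have k2 : |B.re| ≤ δ := by
      have e : B.re = -∑ p ∈ (Ioc Y z).filter Nat.Prime, rr h χ p / p := by
        rw [hB, Complex.re_sum, ← Finset.sum_neg_distrib]
        refine Finset.sum_congr rfl fun p _ => ?_
        rw [Complex.div_natCast_re, aa_re]
        ring
      rw [e, abs_neg, abs_of_nonneg (Finset.sum_nonneg fun p _ =>
        div_nonneg (rr_nonneg hh p) (Nat.cast_nonneg _))]
      exact b1 Y z le_rfl
    have k4 : ∑ p ∈ (Ioc Y N).filter Nat.Prime, (2 * ‖aa h χ p‖ ^ 2 / p + 2 * (1 / (p : ℝ) ^ 2)) ≤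
        η := by
      have a1 := b1' Y N le_rfl
      have a2 := b2 N
      rw [Finset.sum_add_distrib, ← Finset.mul_sum]
      have e : ∑ p ∈ (Ioc Y N).filter Nat.Prime, 2 * ‖aa h χ p‖ ^ 2 / (p : ℝ) =
          2 * ∑ p ∈ (Ioc Y N).filter Nat.Prime, ‖aa h χ p‖ ^ 2 / (p : ℝ) := by
        rw [Finset.mul_sum]
        refine Finset.sum_congr rfl fun p _ => ?_
        ring
      rw [e]
      linarith
    have k5 : (N : ℝ) * (∑ p ∈ (Ioc Y N).filter Nat.Prime,
        (2 * ‖aa h χ p‖ ^ 2 / p + 2 * (1 / (p : ℝ) ^ 2)) +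
        ∑ p ∈ (Icc 1 Y).filter Nat.Prime, (1 / (p : ℝ) ^ J) + η + η + |B.re|) ≤
        N * (5 * η) := mul_le_mul_of_nonneg_left (by linarith) (by positivity)
    have e : ε * N = 8 * (N * η) := by rw [hη]; ring
    have k6 : 0 ≤ N * η := by positivity
    linarith

end Pool.Agent.Y681.E.Apx2
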